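import Pool.Agent.H11.KT.Targets

/-!
# MP_0b603e_al, board elk, row F_FS (helper6)
-/

set_option autoImplicit false

open scoped commutatorElement

namespace Pool.Agent.H6.KT

open Pool.Agent.H11.EL Pool.Agent.H11.KT

/-- the chief factor as a module -/
theorem FS_module {G : Type} [Group G] [Finite G] (M Z : Subgroup G) (hM : M.Normal)
    (hZ : Z.Normal) (hc : ⁅M, M⁆ ≤ Z) :
    ∃ (V : Type) (_ : AddCommGroup V) (_ : DistribMulAction G V) (_ : Finite V) (π : M → V),
      Function.Surjective π ∧ (∀ a b, π (a * b) = π a + π b) ∧ (∀ a, π a = 0 ↔ (a : G) ∈ Z) ∧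
      ∀ (g : G) (a : M), g • π a = π ⟨g * a * g⁻¹, hM.conj_mem _ a.2 g⟩ := by
  have hZ' : (Z.subgroupOf M).Normal := inferInstance
  let cg : CommGroup (M ⧸ Z.subgroupOf M) :=
    { (inferInstance : Group (M ⧸ Z.subgroupOf M)) with
      mul_comm := by
        intro a b
        obtain ⟨a, rfl⟩ := QuotientGroup.mk_surjective a
        obtain ⟨b, rfl⟩ := QuotientGroup.mk_surjective b
        change (QuotientGroup.mk (a * b) : M ⧸ Z.subgroupOf M) = QuotientGroup.mk (b * a)
        rw [QuotientGroup.eq, Subgroup.mem_subgroupOf]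
        apply hc
        have e : (((a * b)⁻¹ * (b * a) : M) : G) = ⁅(b : G)⁻¹, (a : G)⁻¹⁆ := by
          push_cast
          rw [commutatorElement_def]
          group
        rw [e]
        exact Subgroup.commutator_mem_commutator (M.inv_mem b.2) (M.inv_mem a.2) }
  let act : G → (M ⧸ Z.subgroupOf M) →* (M ⧸ Z.subgroupOf M) := fun g =>
    QuotientGroup.map (Z.subgroupOf M) (Z.subgroupOf M) (MulAut.conjNormal g).toMonoidHom (by
      intro z hz
      rw [Subgroup.mem_comap, Subgroup.mem_subgroupOf]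
      have := hZ.conj_mem _ (Subgroup.mem_subgroupOf.1 hz) g
      exact this)
  have hact : ∀ (g : G) (a : M), act g (QuotientGroup.mk a) =
      QuotientGroup.mk (⟨g * a * g⁻¹, hM.conj_mem _ a.2 g⟩ : M) := by
    intro g a
    change (QuotientGroup.mk (MulAut.conjNormal g a) : M ⧸ Z.subgroupOf M) = _
    congr 1
  let dm : DistribMulAction G (Additive (M ⧸ Z.subgroupOf M)) :=
    { smul := fun g v => Additive.ofMul (act g v.toMul)
      one_smul := by
        intro v
        obtain ⟨a, ha⟩ := QuotientGroup.mk_surjective v.toMul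
        change Additive.ofMul (act 1 v.toMul) = v
        rw [← ha, hact]
        have e : (⟨1 * (a : G) * 1⁻¹, hM.conj_mem _ a.2 1⟩ : M) = a := by
          apply Subtype.ext
          simp
        rw [e, ha]
        rfl
      mul_smul := by
        intro g h v
        obtain ⟨a, ha⟩ := QuotientGroup.mk_surjective v.toMul
        change Additive.ofMul (act (g * h) v.toMul) = Additive.ofMul (act g (act h v.toMul))
        rw [← ha, hact, hact, hact]
        congr 2
        apply Subtype.ext
        change g * h * (a : G) * (g * h)⁻¹ = g * (h * (a : G) * h⁻¹) * g⁻¹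
        group
      smul_zero := fun g => congrArg Additive.ofMul (map_one (act g))
      smul_add := fun g a b => congrArg Additive.ofMul (map_mul (act g) a.toMul b.toMul) }
  refine ⟨Additive (M ⧸ Z.subgroupOf M), inferInstance, dm, ?_,
    fun a => Additive.ofMul (QuotientGroup.mk a), ?_, ?_, ?_, ?_⟩
  · have : Finite (M ⧸ Z.subgroupOf M) := inferInstance
    exact this
  · intro v
    obtain ⟨a, ha⟩ := QuotientGroup.mk_surjective v.toMul
    exact ⟨a, congrArg Additive.ofMul ha⟩
  · intro a b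
    rfl
  · intro a
    change (QuotientGroup.mk a : M ⧸ Z.subgroupOf M) = 1 ↔ _
    rw [QuotientGroup.eq_one_iff, Subgroup.mem_subgroupOf]
  · intro g a
    exact congrArg Additive.ofMul (hact g a)

theorem FS_card {G : Type} [Group G] (M Z : Subgroup G) (hZM : Z ≤ M) {V : Type}
    [AddCommGroup V] (π : M → V) (hs : Function.Surjective π)
    (hadd : ∀ a b, π (a * b) = π a + π b) (hk : ∀ a, π a = 0 ↔ (a : G) ∈ Z) (P : V → Prop) :
    Nat.card {u : M // P (π u)} = Nat.card Z * Nat.card {v : V // P v} := by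
  rw [← Nat.card_prod]
  have h1 : π 1 = 0 := (hk 1).2 Z.one_mem
  have hinv : ∀ a, π a⁻¹ = -π a := by
    intro a
    have := hadd a⁻¹ a
    rw [inv_mul_cancel, h1] at this
    exact eq_neg_of_add_eq_zero_left this.symm
  let σ := Function.surjInv hs
  have hσ : ∀ v, π (σ v) = v := Function.surjInv_eq hs
  refine Nat.card_congr
    { toFun := fun u => (⟨((u.1 * (σ (π u.1))⁻¹ : M) : G), ?_⟩, ⟨π u.1, u.2⟩)
      invFun := fun p => ⟨⟨(p.1 : G), hZM p.1.2⟩ * σ p.2.1, ?_⟩
      left_inv := ?_
      right_inv := ?_ }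
  · rw [← hk, hadd, hinv, hσ, add_neg_cancel]
  · rw [hadd, hσ, (hk _).2 p.1.2, zero_add]
    exact p.2.2
  · rintro ⟨u, hu⟩
    apply Subtype.ext
    apply Subtype.ext
    simp
  · rintro ⟨⟨z, hz⟩, ⟨v, hv⟩⟩
    have e : π (⟨z, hZM hz⟩ * σ v) = v := by
      rw [hadd, hσ, (hk _).2 hz, zero_add]
    apply Prod.ext
    · apply Subtype.ext
      simp only [e]
      simp
    · apply Subtype.ext
      exact e

theorem pf_FS (hMO : F_MO) : F_FS := by
  intro G _ _ hG M Z hCF S hS
  have hM := hCF.nM
  obtain ⟨V, iV, iD, iF, π, hs, hadd, hk, hact⟩ := FS_module M Z hCF.nM hCF.nZ hCF.cM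
  have h1 : π 1 = 0 := (hk 1).2 Z.one_mem
  have hinv : ∀ a, π a⁻¹ = -π a := by
    intro a
    have := hadd a⁻¹ a
    rw [inv_mul_cancel, h1] at this
    exact eq_neg_of_add_eq_zero_left this.symm
  -- commutators
  have hcom : ∀ (u : M) (n : G), ⁅(u : G), n⁆ ∈ Z ↔ n • π u = π u := by
    intro u n
    have e : ⁅(u : G), n⁆ = ((u * ⟨n * (u⁻¹ : M) * n⁻¹, hM.conj_mem _ (u⁻¹).2 n⟩ : M) : G) := by
      rw [commutatorElement_def]
      push_cast
      group
    rw [e, ← hk, hadd, ← hact, hinv, smul_neg, ← sub_eq_add_neg, sub_eq_zero]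
    exact eq_comm
  have hirr : Irr G V := by
    constructor
    · obtain ⟨m, hm, hmZ⟩ := Set.exists_of_ssubset hCF.lt
      exact ⟨π ⟨m, hm⟩, fun h => hmZ ((hk _).1 h)⟩
    · intro U hU
      let L : Subgroup G :=
        { carrier := {x | ∃ h : x ∈ M, π ⟨x, h⟩ ∈ U}
          one_mem' := ⟨M.one_mem, by
            have e : (⟨1, M.one_mem⟩ : M) = 1 := rfl
            rw [e, h1]
            exact U.zero_mem⟩
          mul_mem' := by
            rintro a b ⟨ha, ha'⟩ ⟨hb, hb'⟩
            refine ⟨M.mul_mem ha hb, ?_⟩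
            have e : (⟨a * b, M.mul_mem ha hb⟩ : M) = ⟨a, ha⟩ * ⟨b, hb⟩ := rfl
            rw [e, hadd]
            exact U.add_mem ha' hb'
          inv_mem' := by
            rintro a ⟨ha, ha'⟩
            refine ⟨M.inv_mem ha, ?_⟩
            have e : (⟨a⁻¹, M.inv_mem ha⟩ : M) = (⟨a, ha⟩ : M)⁻¹ := rfl
            rw [e, hinv]
            exact U.neg_mem ha' }
      have hLM : L ≤ M := fun x hx => hx.1
      have hLn : L.Normal := by
        constructor
        rintro x ⟨hx, hx'⟩ g
        refine ⟨hM.conj_mem _ hx g, ?_⟩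
        have := hU g _ hx'
        rw [hact] at this
        exact this
      by_cases hL : L = M
      · right
        rw [eq_top_iff]
        intro v _
        obtain ⟨u, rfl⟩ := hs v
        have : (u : G) ∈ L := by
          rw [hL]
          exact u.2
        exact this.2
      · left
        have h2 := hCF.min L hLn hLM hL
        rw [eq_bot_iff]
        intro v hv
        obtain ⟨u, rfl⟩ := hs v
        have h3 : (u : G) ∈ L := ⟨u.2, hv⟩
        exact (hk u).2 (h2 h3)
  have hnt : ∃ (g : G) (v : V), g • v ≠ v := by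
    by_contra hcon
    push Not at hcon
    have h2 : ⁅M, (⊤ : Subgroup G)⁆ ≤ Z := by
      rw [Subgroup.commutator_le]
      intro m hm g _
      exact (hcom ⟨m, hm⟩ g).2 (hcon g _)
    rw [hCF.top] at h2
    exact absurd hCF.lt (not_lt_of_ge h2)
  obtain ⟨n, hn, hfc⟩ := hMO G V hG hirr hnt S hS
  refine ⟨n, hn, ?_⟩
  have hcz : cz M Z n = Nat.card Z * fc V n := by
    unfold cz fc
    rw [← FS_card M Z hCF.lt.le π hs hadd hk (fun v => n • v = v)]
    exact Nat.card_congr (Equiv.subtypeEquivRight fun u => hcom u n)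
  have hcM : Nat.card M = Nat.card Z * Nat.card V := by
    have h2 := FS_card M Z hCF.lt.le π hs hadd hk (fun _ => True)
    rw [Nat.card_congr (Equiv.subtypeUnivEquiv fun _ => trivial),
      Nat.card_congr (Equiv.subtypeUnivEquiv fun _ => trivial)] at h2
    exact h2
  rw [hcz, hcM]
  calc (Nat.card Z * fc V n) ^ 4 = Nat.card Z ^ 4 * fc V n ^ 4 := by ring
    _ ≤ Nat.card Z ^ 4 * Nat.card V ^ 3 := Nat.mul_le_mul_left _ hfc
    _ = (Nat.card Z * Nat.card V) ^ 3 * Nat.card Z := by ring

end Pool.Agent.H6.KT
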