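import Pool.Agent.H11.KT.Targets

/-!
# MP_0b603e_al, board elk, row P_FG (helper6)
-/

set_option autoImplicit false

open scoped commutatorElement

namespace Pool.Agent.H6.KT

open Pool.Agent.H11.EL Pool.Agent.H11.KT

section

variable {H : Type} [Group H]

/-- the group generated by all conjugates of `a` by powers of `b` -/
def Nn (a b : H) : Subgroup H := Subgroup.closure (Set.range fun i : ℤ => b ^ i * a * (b ^ i)⁻¹)

theorem Nn_conj (a b : H) {g : H} (hg : g ∈ Nn a b) (k : ℤ) : b ^ k * g * (b ^ k)⁻¹ ∈ Nn a b := by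
  refine Subgroup.closure_induction (p := fun g _ => b ^ k * g * (b ^ k)⁻¹ ∈ Nn a b)
    ?_ ?_ ?_ ?_ hg
  · rintro _ ⟨i, rfl⟩
    refine Subgroup.subset_closure ⟨k + i, ?_⟩
    change b ^ (k + i) * a * (b ^ (k + i))⁻¹ = b ^ k * (b ^ i * a * (b ^ i)⁻¹) * (b ^ k)⁻¹
    rw [zpow_add]
    group
  · rw [mul_one, mul_inv_cancel]
    exact Subgroup.one_mem _
  · intro u v _ _ hu hv
    have e : b ^ k * (u * v) * (b ^ k)⁻¹ = (b ^ k * u * (b ^ k)⁻¹) * (b ^ k * v * (b ^ k)⁻¹) := by
      group
    rw [e]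
    exact Subgroup.mul_mem _ hu hv
  · intro u _ hu
    have e : b ^ k * u⁻¹ * (b ^ k)⁻¹ = (b ^ k * u * (b ^ k)⁻¹)⁻¹ := by group
    rw [e]
    exact Subgroup.inv_mem _ hu

theorem self_mem_Nn (a b : H) : a ∈ Nn a b := Subgroup.subset_closure ⟨0, by simp⟩

/-- conjugation of closures -/
theorem conj_closure {S : Set H} {F : Subgroup H} {a : H} (ha : a ∈ Subgroup.closure S) (c : H)
    (hS : ∀ s ∈ S, c * s * c⁻¹ ∈ F) : c * a * c⁻¹ ∈ F := by
  refine Subgroup.closure_induction (p := fun g _ => c * g * c⁻¹ ∈ F) ?_ ?_ ?_ ?_ ha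
  · exact fun s hs => hS s hs
  · rw [mul_one, mul_inv_cancel]
    exact Subgroup.one_mem _
  · intro u v _ _ hu hv
    have e : c * (u * v) * c⁻¹ = (c * u * c⁻¹) * (c * v * c⁻¹) := by
      group
    rw [e]
    exact Subgroup.mul_mem _ hu hv
  · intro u _ hu
    have e : c * u⁻¹ * c⁻¹ = (c * u * c⁻¹)⁻¹ := by group
    rw [e]
    exact Subgroup.inv_mem _ hu

theorem Nn_fg (m : ℕ)
    (h : ∀ a b : H, a ∈ Subgroup.closure {g | ∃ i : ℕ, 1 ≤ i ∧ i ≤ m ∧ g = b ^ i * a * (b ^ i)⁻¹})
    (a b : H) : Nn a b = Subgroup.closure ((fun i : ℕ => b ^ i * a * (b ^ i)⁻¹) '' (Set.Iio m)) := by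
  set F := Subgroup.closure ((fun i : ℕ => b ^ i * a * (b ^ i)⁻¹) '' (Set.Iio m)) with hF
  have h1 : ∀ k : ℕ, b ^ k * a * (b ^ k)⁻¹ ∈ F := by
    intro k
    induction k using Nat.strong_induction_on with
    | _ k ih =>
      by_cases hk : k < m
      · exact Subgroup.subset_closure ⟨k, hk, rfl⟩
      · refine conj_closure (h a b⁻¹) (b ^ k) ?_
        rintro _ ⟨i, hi1, him, rfl⟩
        have e : b ^ k * (b⁻¹ ^ i * a * (b⁻¹ ^ i)⁻¹) * (b ^ k)⁻¹ =
            b ^ (k - i) * a * (b ^ (k - i))⁻¹ := by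
          have e1 : b ^ k = b ^ (k - i) * b ^ i := by rw [← pow_add]; congr 1; omega
          rw [e1, inv_pow]
          group
        rw [e]
        exact ih _ (by omega)
  have h2 : ∀ k : ℕ, b⁻¹ ^ k * a * (b⁻¹ ^ k)⁻¹ ∈ F := by
    intro k
    induction k using Nat.strong_induction_on with
    | _ k ih =>
      refine conj_closure (h a b) (b⁻¹ ^ k) ?_
      rintro _ ⟨i, hi1, him, rfl⟩
      rcases le_total k i with hki | hki
      · have e : b⁻¹ ^ k * (b ^ i * a * (b ^ i)⁻¹) * (b⁻¹ ^ k)⁻¹ =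
            b ^ (i - k) * a * (b ^ (i - k))⁻¹ := by
          have e1 : b ^ i = b ^ k * b ^ (i - k) := by rw [← pow_add]; congr 1; omega
          rw [e1, inv_pow]
          group
        rw [e]
        exact h1 _
      · rcases Nat.eq_or_lt_of_le hki with hki' | hki'
        · subst hki'
          have e : b⁻¹ ^ i * (b ^ i * a * (b ^ i)⁻¹) * (b⁻¹ ^ i)⁻¹ = b ^ 0 * a * (b ^ 0)⁻¹ := by
            rw [inv_pow]
            group
          rw [e]
          exact h1 0
        · have e : b⁻¹ ^ k * (b ^ i * a * (b ^ i)⁻¹) * (b⁻¹ ^ k)⁻¹ =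
            b⁻¹ ^ (k - i) * a * (b⁻¹ ^ (k - i))⁻¹ := by
            have e1 : b⁻¹ ^ k = b⁻¹ ^ (k - i) * b⁻¹ ^ i := by rw [← pow_add]; congr 1; omega
            rw [e1, inv_pow b i]
            group
          rw [e]
          exact ih _ (by omega)
  apply le_antisymm
  · refine (Subgroup.closure_le _).2 ?_
    rintro _ ⟨i, rfl⟩
    rcases Int.eq_nat_or_neg i with ⟨n, hn | hn⟩
    · subst hn
      have := h1 n
      simpa using this
    · subst hn
      have := h2 n
      simpa using this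
  · refine (Subgroup.closure_le _).2 ?_
    rintro _ ⟨i, -, rfl⟩
    exact Subgroup.subset_closure ⟨(i : ℤ), by simp⟩

end

theorem pf_FG : P_FG := by
  classical
  intro m H _ h x y hxy
  -- `N` is normal and contains the derived group
  have hNx : Nn y x = Subgroup.closure ((fun i : ℕ => x ^ i * y * (x ^ i)⁻¹) '' (Set.Iio m)) :=
    Nn_fg m h y x
  have hyN : y ∈ Nn y x := self_mem_Nn y x
  have hxn : x ∈ Subgroup.normalizer (Nn y x : Set H) := by
    rw [Subgroup.mem_normalizer_iff]
    intro g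
    constructor
    · intro hg
      have := Nn_conj y x hg 1
      simpa using this
    · intro hg
      have := Nn_conj y x hg (-1)
      have e : x ^ (-1 : ℤ) * (x * g * x⁻¹) * (x ^ (-1 : ℤ))⁻¹ = g := by group
      rwa [e] at this
  have hNn : (Nn y x).Normal := by
    rw [← Subgroup.normalizer_eq_top_iff, eq_top_iff, ← hxy, Subgroup.closure_le]
    rintro g (rfl | rfl)
    · exact hxn
    · exact Subgroup.le_normalizer hyN
  have hcomm : commutator H ≤ Nn y x := by
    refine Subgroup.Normal.commutator_le_of_self_sup_commutative_eq_top (H := Subgroup.zpowers x)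
      ?_ inferInstance
    rw [eq_top_iff, ← hxy, Subgroup.closure_le]
    rintro g (rfl | rfl)
    · exact Subgroup.mem_sup_right (Subgroup.mem_zpowers g)
    · exact Subgroup.mem_sup_left hyN
  -- the elements `z i`
  let z : ℕ → H := fun i => y⁻¹ * (x ^ i * y * (x ^ i)⁻¹)
  have hz : ∀ i, z i ∈ commutator H := by
    intro i
    have e : z i = ⁅y⁻¹, x ^ i⁆ := by
      simp only [z, commutatorElement_def, inv_inv]
      group
    rw [e]
    exact Subgroup.commutator_mem_commutator (Subgroup.mem_top _) (Subgroup.mem_top _)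
  let T : ℕ → Finset H := fun i =>
    (Finset.range m).image (fun j : ℕ => y ^ j * z i * (y ^ j)⁻¹)
  have hT : ∀ i, Subgroup.closure (T i : Set H) = Nn (z i) y := by
    intro i
    rw [Nn_fg m h (z i) y]
    congr 1
    ext g
    simp [T]
  let Tz : Finset H := (Finset.range m).biUnion T
  let Z : Subgroup H := Subgroup.closure (Tz : Set H)
  have hNZ : ∀ i < m, Nn (z i) y ≤ Z := by
    intro i hi
    rw [← hT]
    refine Subgroup.closure_mono ?_
    intro g hg
    simp only [Tz, Finset.coe_biUnion, Set.mem_iUnion]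
    exact ⟨i, by simpa using hi, hg⟩
  have hTN : ∀ g ∈ (Tz : Set H), ∃ i < m, g ∈ Nn (z i) y := by
    intro g hg
    simp only [Tz, Finset.coe_biUnion, Set.mem_iUnion] at hg
    obtain ⟨i, hi, hg⟩ := hg
    refine ⟨i, by simpa using hi, ?_⟩
    rw [← hT]
    exact Subgroup.subset_closure hg
  have hZc : ∀ g ∈ Z, ∀ k : ℤ, y ^ k * g * (y ^ k)⁻¹ ∈ Z := by
    intro g hg k
    refine conj_closure hg (y ^ k) ?_
    intro s hs
    obtain ⟨i, hi, hs⟩ := hTN s hs
    exact hNZ i hi (Nn_conj _ _ hs k)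
  have hZD : Z ≤ commutator H := by
    refine (Subgroup.closure_le _).2 ?_
    intro g hg
    obtain ⟨i, hi, hg⟩ := hTN g hg
    have : Nn (z i) y ≤ commutator H := by
      refine (Subgroup.closure_le _).2 ?_
      rintro _ ⟨k, rfl⟩
      exact (inferInstance : (commutator H).Normal).conj_mem _ (hz i) _
    exact this hg
  let W : Subgroup H :=
    { carrier := {g | ∃ u ∈ Z, ∃ k : ℤ, g = u * y ^ k}
      one_mem' := ⟨1, Z.one_mem, 0, by simp⟩
      mul_mem' := by
        rintro _ _ ⟨u, hu, k, rfl⟩ ⟨v, hv, l, rfl⟩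
        refine ⟨u * (y ^ k * v * (y ^ k)⁻¹), Z.mul_mem hu (hZc v hv k), k + l, ?_⟩
        rw [zpow_add]
        group
      inv_mem' := by
        rintro _ ⟨u, hu, k, rfl⟩
        refine ⟨y ^ (-k) * u⁻¹ * (y ^ (-k))⁻¹, hZc _ (Z.inv_mem hu) _, -k, ?_⟩
        rw [zpow_neg]
        group }
  have hNW : Nn y x ≤ W := by
    rw [hNx]
    refine (Subgroup.closure_le _).2 ?_
    rintro _ ⟨i, hi, rfl⟩
    refine ⟨y ^ (1 : ℤ) * z i * (y ^ (1 : ℤ))⁻¹,
      hZc _ (hNZ i hi (self_mem_Nn (z i) y)) 1, 1, ?_⟩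
    simp only [z]
    group
  -- the exponents
  let K : AddSubgroup ℤ :=
    { carrier := {k | y ^ k ∈ commutator H}
      zero_mem' := by
        change y ^ (0 : ℤ) ∈ commutator H
        rw [zpow_zero]
        exact Subgroup.one_mem _
      add_mem' := by
        intro a b ha hb
        change y ^ (a + b) ∈ commutator H
        rw [zpow_add]
        exact Subgroup.mul_mem _ ha hb
      neg_mem' := by
        intro a ha
        change y ^ (-a) ∈ commutator H
        rw [zpow_neg]
        exact Subgroup.inv_mem _ ha }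
  obtain ⟨a, ha⟩ := Int.subgroup_cyclic K
  refine ⟨insert (y ^ a) Tz, ?_⟩
  apply le_antisymm
  · refine (Subgroup.closure_le _).2 ?_
    intro g hg
    rw [Finset.coe_insert] at hg
    rcases hg with rfl | hg
    · have : a ∈ K := by
        rw [ha]
        exact AddSubgroup.subset_closure rfl
      exact this
    · exact hZD (Subgroup.subset_closure hg)
  · intro d hd
    obtain ⟨u, hu, k, rfl⟩ := hNW (hcomm hd)
    have hk : k ∈ K := by
      change y ^ k ∈ commutator H
      have e : y ^ k = u⁻¹ * (u * y ^ k) := by rw [inv_mul_cancel_left]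
      rw [e]
      exact Subgroup.mul_mem _ (Subgroup.inv_mem _ (hZD hu)) hd
    rw [ha, AddSubgroup.mem_closure_singleton] at hk
    obtain ⟨n, rfl⟩ := hk
    refine Subgroup.mul_mem _ ?_ ?_
    · refine Subgroup.closure_mono ?_ hu
      rw [Finset.coe_insert]
      exact Set.subset_insert _ _
    · have e : y ^ (n • a) = (y ^ a) ^ n := by
        rw [smul_eq_mul, mul_comm, zpow_mul]
      rw [e]
      refine Subgroup.zpow_mem _ (Subgroup.subset_closure ?_) _
      rw [Finset.coe_insert]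
      exact Set.mem_insert _ _

end Pool.Agent.H6.KT
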