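import Pool.Agent.H11.KT.Targets

/-!
# MP_0b603e_al, board elk, row P_RS (helper6)
-/

set_option autoImplicit false

open scoped commutatorElement

namespace Pool.Agent.H6.KT

open Pool.Agent.H11.EL Pool.Agent.H11.KT

theorem RS_lift_map {r : ℕ} (w : FreeGroup (Fin r)) {G H : Type} [Group G] [Group H]
    (φ : G →* H) (f : Fin r → G) :
    φ (FreeGroup.lift f w) = FreeGroup.lift (fun i => φ (f i)) w := by
  have : φ.comp (FreeGroup.lift f) = FreeGroup.lift (fun i => φ (f i)) := by
    ext i; simp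
  rw [← this]; rfl

/-- the verbal subgroup -/
theorem RS_normal {r : ℕ} (w : FreeGroup (Fin r)) (G : Type) [Group G] :
    (Subgroup.closure (Set.range (fun f : Fin r → G => FreeGroup.lift f w))).Normal := by
  constructor
  intro n hn g
  refine Subgroup.closure_induction (p := fun n _ => g * n * g⁻¹ ∈
    Subgroup.closure (Set.range (fun f : Fin r → G => FreeGroup.lift f w))) ?_ ?_ ?_ ?_ hn
  · rintro _ ⟨f, rfl⟩
    refine Subgroup.subset_closure ⟨fun i => g * f i * g⁻¹, ?_⟩
    exact (RS_lift_map w (MulAut.conj g).toMonoidHom f).symm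
  · rw [mul_one, mul_inv_cancel]
    exact Subgroup.one_mem _
  · intro a b _ _ ha hb
    have e : g * (a * b) * g⁻¹ = (g * a * g⁻¹) * (g * b * g⁻¹) := by group
    rw [e]
    exact Subgroup.mul_mem _ ha hb
  · intro a _ ha
    have e : g * a⁻¹ * g⁻¹ = (g * a * g⁻¹)⁻¹ := by group
    rw [e]
    exact Subgroup.inv_mem _ ha

theorem RS_pow_pi {ι : Type} {G : ι → Type} [∀ i, Group (G i)] (x y : ∀ i, G i) (i : ι) :
    ⁅x, y⁆ i = ⁅x i, y i⁆ := rfl

theorem pf_RS (hKP : P_KP) (hPP : P_PP) : P_RS := by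
  intro r w hw
  by_contra hcon
  push Not at hcon
  choose G grp fin hsol x y hxy using hcon
  let _ : ∀ K, Group (G K) := grp
  let N : Subgroup (∀ K, G K) :=
    Subgroup.closure (Set.range (fun f : Fin r → (∀ K, G K) => FreeGroup.lift f w))
  have hN : N.Normal := RS_normal w _
  let mk := QuotientGroup.mk' N
  have hmk : Function.Surjective mk := QuotientGroup.mk'_surjective N
  have hlaw : ∀ f : Fin r → (∀ K, G K) ⧸ N, FreeGroup.lift f w = 1 := by
    intro f
    choose F hF using fun i => hmk (f i)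
    have h1 : f = fun i => mk (F i) := by
      funext i
      exact (hF i).symm
    rw [h1, ← RS_lift_map]
    exact (QuotientGroup.eq_one_iff _).2 (Subgroup.subset_closure ⟨F, rfl⟩)
  -- the group generated by the images of `x` and `y`
  let H : Subgroup ((∀ K, G K) ⧸ N) := Subgroup.closure {mk x, mk y}
  have hx : mk x ∈ H := Subgroup.subset_closure (Or.inl rfl)
  have hy : mk y ∈ H := Subgroup.subset_closure (Or.inr rfl)
  have hH : Subgroup.closure ({(⟨mk x, hx⟩ : H), ⟨mk y, hy⟩} : Set H) = ⊤ := by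
    apply Subgroup.map_injective H.subtype_injective
    rw [MonoidHom.map_closure, Set.image_pair, ← MonoidHom.range_eq_map, Subgroup.range_subtype]
    rfl
  obtain ⟨hFG, hperf⟩ := hw H ⟨mk x, hx⟩ ⟨mk y, hy⟩ hH (by
    intro f
    apply H.subtype_injective
    rw [RS_lift_map, map_one]
    exact hlaw _)
  -- the derived group inside the quotient
  have hC : (commutator H).map H.subtype = ⁅H, H⁆ := Subgroup.map_subtype_commutator H
  have hCFG : (⁅H, H⁆ : Subgroup _).FG := by
    classical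
    obtain ⟨T, hT⟩ := hFG
    refine ⟨T.image H.subtype, ?_⟩
    rw [Finset.coe_image, ← MonoidHom.map_closure, hT]
    exact hC
  have hCC : ⁅⁅H, H⁆, ⁅H, H⁆⁆ = ⁅H, H⁆ := by
    rw [← hC, ← Subgroup.map_commutator, hperf]
  obtain ⟨T, hT⟩ := hCFG
  let s := T.card
  let u' : Fin s → (∀ K, G K) ⧸ N := fun i => (T.equivFin.symm i : (∀ K, G K) ⧸ N)
  have hu'r : Set.range u' = (T : Set _) := by
    ext z
    constructor
    · rintro ⟨i, rfl⟩
      exact (T.equivFin.symm i).2
    · intro hz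
      exact ⟨T.equivFin ⟨z, hz⟩, by simp [u']⟩
  choose u hu using fun i => hmk (u' i)
  let L : Subgroup (∀ K, G K) := Subgroup.closure (Set.range u)
  have hLm : L.map mk = ⁅H, H⁆ := by
    rw [← hT, ← hu'r, MonoidHom.map_closure, ← Set.range_comp]
    congr 2
    funext i
    exact hu i
  have hcex : ∀ i, ∃ c ∈ ⁅L, L⁆, mk c = mk (u i) := by
    intro i
    have h1 : mk (u i) ∈ ⁅L, L⁆.map mk := by
      rw [Subgroup.map_commutator, hLm, hCC, ← hLm]
      exact ⟨u i, Subgroup.subset_closure ⟨i, rfl⟩, rfl⟩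
    obtain ⟨c, hc, hc'⟩ := h1
    exact ⟨c, hc, hc'⟩
  choose c hcL hcu using hcex
  have hcN : ∀ i, (c i)⁻¹ * u i ∈ N := fun i => QuotientGroup.eq.1 (hcu i)
  choose m hm using fun i => hPP r w G _ (hcN i)
  obtain ⟨M₀, hM₀⟩ := hKP r w s (∑ i, m i)
  have hevL : ∀ K, L.map (Pi.evalMonoidHom G K) = Subgroup.closure (Set.range fun i => u i K) := by
    intro K
    rw [MonoidHom.map_closure, ← Set.range_comp]
    rfl
  have hKcomm : ∀ K, ∀ g ∈ (⁅Subgroup.closure (Set.range fun i => u i K),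
      Subgroup.closure (Set.range fun i => u i K)⁆ : Subgroup (G K)), PW w M₀ g := by
    intro K
    have hfin : Finite (G K) := fin K
    have hs : Group.IsSolvable (G K) := hsol K
    refine hM₀ (G K) (Subgroup.closure (Set.range fun i => u i K)) inferInstance
      (fun i => u i K) (fun i => c i K) rfl ?_ ?_
    · intro i
      rw [← hevL, ← Subgroup.map_commutator]
      exact ⟨c i, hcL i, rfl⟩
    · intro i
      exact (hm i K).mono (Finset.single_le_sum (fun j _ => Nat.zero_le (m j)) (Finset.mem_univ i))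
  -- the bounded elements
  let B : Subgroup (∀ K, G K) :=
    { carrier := {g | ∃ k : ℕ, ∀ K, PW w k (g K)}
      one_mem' := ⟨0, fun K => PW.one 0⟩
      mul_mem' := by
        rintro a b ⟨k, hk⟩ ⟨l, hl⟩
        exact ⟨k + l, fun K => (hk K).mul (hl K)⟩
      inv_mem' := by
        rintro a ⟨k, hk⟩
        exact ⟨k, fun K => (hk K).inv⟩ }
  have hLB : L ≤ B := by
    refine (Subgroup.closure_le _).2 ?_
    rintro _ ⟨i, rfl⟩
    refine ⟨M₀ + m i, fun K => ?_⟩
    have h1 : c i K ∈ (⁅Subgroup.closure (Set.range fun i => u i K),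
        Subgroup.closure (Set.range fun i => u i K)⁆ : Subgroup (G K)) := by
      rw [← hevL, ← Subgroup.map_commutator]
      exact ⟨c i, hcL i, rfl⟩
    have h2 := (hKcomm K _ h1).mul (hm i K)
    have h3 : c i K * ((c i)⁻¹ * u i) K = u i K := by
      change c i K * ((c i K)⁻¹ * u i K) = u i K
      rw [mul_inv_cancel_left]
    rwa [h3] at h2
  have hNB : N ≤ B := fun g hg => hPP r w G g hg
  have hxyC : mk ⁅x, y⁆ ∈ L.map mk := by
    rw [hLm, map_commutatorElement]
    exact Subgroup.commutator_mem_commutator hx hy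
  obtain ⟨l, hl, hl'⟩ := hxyC
  have hν : l⁻¹ * ⁅x, y⁆ ∈ N := QuotientGroup.eq.1 hl'
  have hB : ⁅x, y⁆ ∈ B := by
    have e : ⁅x, y⁆ = l * (l⁻¹ * ⁅x, y⁆) := by rw [mul_inv_cancel_left]
    rw [e]
    exact B.mul_mem (hLB hl) (hNB hν)
  obtain ⟨k, hk⟩ := hB
  exact hxy k (hk k)

end Pool.Agent.H6.KT
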